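import Pool.Agent.Work.MP_8c67d3_co.FinalMain

/-!
# The extremal growth rates of face-homogeneous tessellations are attained
-/

set_option autoImplicit false

namespace Pool.Agent.Results.MP_8c67d3_co.ExtremalGrowthAttained

open Tess

/-- Let `σ` be a cyclic sequence of length at least `3` with entries at least `3`. The growth rate
of a tessellation with valence sequence `σ` does not depend on the root, and if there is such a
tessellation then the set of the growth rates of all tessellations with valence sequence `σ` has a
least and a greatest element. -/
theorem result (σ : List ℕ) (hlen : 3 ≤ σ.length) (hσ : ∀ p ∈ σ, 3 ≤ p) :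
    (∀ (D : Type) (M : CMap D) (x y : M.V), M.IsTess → M.HasSeq σ → M.growth x = M.growth y) ∧
    ((Rates σ).Nonempty → (∃ g, IsLeast (Rates σ) g) ∧ (∃ g, IsGreatest (Rates σ) g)) :=
  finalTheorem σ hlen hσ

end Pool.Agent.Results.MP_8c67d3_co.ExtremalGrowthAttained
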